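import Pool.Agent.Helper26.Qh.LF
import Pool.Agent.Helper19.Qh.ORBC

set_option autoImplicit false

/-!
# The lattice `O³` of Hurwitz integers
-/

namespace Pool.Agent.Helper19.Qc

open Pool.Agent.Helper19.Qh

/-- the element `n (1+i+j+k)/2 + b i + c j + d k` -/
noncomputable def hq (n b c d : ℤ) : Q := ⟨(n : ℝ) / 2, n / 2 + b, n / 2 + c, n / 2 + d⟩

theorem hq_re (n b c d : ℤ) : (hq n b c d).re = (n : ℝ) / 2 := rfl

theorem hq_i (n b c d : ℤ) : (hq n b c d).imI = (n : ℝ) / 2 + b := rfl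

theorem hq_j (n b c d : ℤ) : (hq n b c d).imJ = (n : ℝ) / 2 + c := rfl

theorem hq_k (n b c d : ℤ) : (hq n b c d).imK = (n : ℝ) / 2 + d := rfl

/-- the Hurwitz integers -/
def HO : Subring Q where
  carrier := {q | ∃ n b c d : ℤ, q = hq n b c d}
  mul_mem' := by
    rintro x y ⟨n, b, c, d, rfl⟩ ⟨n', b', c', d', rfl⟩
    refine ⟨-(n * n') - n * (b' + c' + d') - n' * (b + c + d) - 2 * (b * b' + c * c' + d * d'),
      n * n' + n * b' + n * d' + n' * b + n' * c + c * d' - d * c' + b * b' + c * c' + d * d',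
      n * n' + n * c' + n * b' + n' * c + n' * d + d * b' - b * d' + b * b' + c * c' + d * d',
      n * n' + n * d' + n * c' + n' * d + n' * b + b * c' - c * b' + b * b' + c * c' + d * d', ?_⟩
    apply Quaternion.ext <;> simp only [Quaternion.re_mul, Quaternion.imI_mul, Quaternion.imJ_mul,
      Quaternion.imK_mul, hq_re, hq_i, hq_j, hq_k] <;> push_cast <;> ring
  one_mem' := ⟨2, -1, -1, -1, by
    apply Quaternion.ext <;> simp only [hq_re, hq_i, hq_j, hq_k, Quaternion.re_one,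
      Quaternion.imI_one, Quaternion.imJ_one, Quaternion.imK_one] <;> push_cast <;> ring⟩
  add_mem' := by
    rintro x y ⟨n, b, c, d, rfl⟩ ⟨n', b', c', d', rfl⟩
    refine ⟨n + n', b + b', c + c', d + d', ?_⟩
    apply Quaternion.ext <;> simp only [Quaternion.re_add, Quaternion.imI_add,
      Quaternion.imJ_add, Quaternion.imK_add, hq_re, hq_i, hq_j, hq_k] <;> push_cast <;> ring
  zero_mem' := ⟨0, 0, 0, 0, by
    apply Quaternion.ext <;> simp only [hq_re, hq_i, hq_j, hq_k, Quaternion.re_zero,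
      Quaternion.imI_zero, Quaternion.imJ_zero, Quaternion.imK_zero] <;> push_cast <;> ring⟩
  neg_mem' := by
    rintro x ⟨n, b, c, d, rfl⟩
    refine ⟨-n, -b, -c, -d, ?_⟩
    apply Quaternion.ext <;> simp only [Quaternion.re_neg, Quaternion.imI_neg,
      Quaternion.imJ_neg, Quaternion.imK_neg, hq_re, hq_i, hq_j, hq_k] <;> push_cast <;> ring

theorem mem_HO {q : Q} : q ∈ HO ↔ ∃ n b c d : ℤ, q = hq n b c d := Iff.rfl

theorem hq_mem (n b c d : ℤ) : hq n b c d ∈ HO := ⟨n, b, c, d, rfl⟩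

theorem star_HO {q : Q} (h : q ∈ HO) : star q ∈ HO := by
  obtain ⟨n, b, c, d, rfl⟩ := h
  refine ⟨n, -n - b, -n - c, -n - d, ?_⟩
  apply Quaternion.ext <;> simp only [Quaternion.re_star, Quaternion.imI_star,
    Quaternion.imJ_star, Quaternion.imK_star, hq_re, hq_i, hq_j, hq_k] <;> push_cast <;> ring

theorem hq_norm (n b c d : ℤ) :
    ‖hq n b c d‖ ^ 2 = ((n ^ 2 + n * (b + c + d) + b ^ 2 + c ^ 2 + d ^ 2 : ℤ) : ℝ) := by
  rw [q_norm_sq, hq_re, hq_i, hq_j, hq_k]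
  push_cast
  ring

theorem HO_norm_sq {q : Q} (h : q ∈ HO) : ∃ N : ℕ, ‖q‖ ^ 2 = N := by
  obtain ⟨n, b, c, d, rfl⟩ := h
  rw [hq_norm]
  have h0 : (0 : ℝ) ≤ ((n ^ 2 + n * (b + c + d) + b ^ 2 + c ^ 2 + d ^ 2 : ℤ) : ℝ) := by
    rw [← hq_norm]; positivity
  have h1 : 0 ≤ n ^ 2 + n * (b + c + d) + b ^ 2 + c ^ 2 + d ^ 2 := by exact_mod_cast h0
  refine ⟨(n ^ 2 + n * (b + c + d) + b ^ 2 + c ^ 2 + d ^ 2).toNat, ?_⟩
  exact_mod_cast congrArg (fun z : ℤ => (z : ℝ)) (Int.toNat_of_nonneg h1).symm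

theorem HO_norm {q : Q} (h : q ∈ HO) (h0 : q ≠ 0) : 1 ≤ ‖q‖ := by
  obtain ⟨N, hN⟩ := HO_norm_sq h
  have h1 : 0 < ‖q‖ ^ 2 := by
    have := norm_pos_iff.2 h0
    positivity
  rw [hN] at h1
  have h2 : 1 ≤ N := by exact_mod_cast h1
  have h3 : (1 : ℝ) ≤ ‖q‖ ^ 2 := by rw [hN]; exact_mod_cast h2
  nlinarith [norm_nonneg q]

theorem q_abs_le (q : Q) : |q.re| ≤ ‖q‖ ∧ |q.imI| ≤ ‖q‖ ∧ |q.imJ| ≤ ‖q‖ ∧ |q.imK| ≤ ‖q‖ := by
  have h := q_norm_sq q
  refine ⟨?_, ?_, ?_, ?_⟩ <;> refine abs_le_of_sq_le_sq ?_ (norm_nonneg _) <;> rw [h] <;>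
    nlinarith [sq_nonneg q.re, sq_nonneg q.imI, sq_nonneg q.imJ, sq_nonneg q.imK]

theorem HO_fin (R : ℝ) : {q : Q | q ∈ HO ∧ ‖q‖ ≤ R}.Finite := by
  obtain ⟨N, hN⟩ := exists_nat_ge (2 * R)
  have hfin : ((fun t : ℤ × ℤ × ℤ × ℤ => hq t.1 t.2.1 t.2.2.1 t.2.2.2) ''
      (Set.Icc (-(N : ℤ)) N ×ˢ (Set.Icc (-(N : ℤ)) N ×ˢ (Set.Icc (-(N : ℤ)) N ×ˢ
        Set.Icc (-(N : ℤ)) N)))).Finite :=
    ((Set.finite_Icc _ _).prod ((Set.finite_Icc _ _).prod ((Set.finite_Icc _ _).prod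
      (Set.finite_Icc _ _)))).image _
  refine hfin.subset ?_
  rintro q ⟨⟨n, b, c, d, rfl⟩, hR⟩
  obtain ⟨h1, h2, h3, h4⟩ := q_abs_le (hq n b c d)
  have key : ∀ z : ℤ, |(z : ℝ)| ≤ 2 * R → z ∈ Set.Icc (-(N : ℤ)) N := by
    intro z hz
    have hz2 : |(z : ℝ)| ≤ (N : ℝ) := hz.trans hN
    rw [abs_le] at hz2
    constructor
    · have := hz2.1; exact_mod_cast this
    · have := hz2.2; exact_mod_cast this
  have e1 : |(n : ℝ) / 2| ≤ R := h1.trans hR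
  have e2 : |(n : ℝ) / 2 + b| ≤ R := h2.trans hR
  have e3 : |(n : ℝ) / 2 + c| ≤ R := h3.trans hR
  have e4 : |(n : ℝ) / 2 + d| ≤ R := h4.trans hR
  rw [abs_le] at e1 e2 e3 e4
  refine ⟨(n, b, c, d), ⟨key _ ?_, key _ ?_, key _ ?_, key _ ?_⟩, rfl⟩ <;>
    · rw [abs_le]; constructor <;> linarith [e1.1, e1.2, e2.1, e2.2, e3.1, e3.2, e4.1, e4.2]

/-- the lattice `O³` -/
def MO : AddSubgroup (V 1) where
  carrier := {x | x.1 ∈ HO ∧ x.2.1 0 ∈ HO ∧ x.2.2 ∈ HO}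
  add_mem' := by
    rintro x y ⟨h1, h2, h3⟩ ⟨h1', h2', h3'⟩
    exact ⟨HO.add_mem h1 h1', HO.add_mem h2 h2', HO.add_mem h3 h3'⟩
  zero_mem' := ⟨HO.zero_mem, HO.zero_mem, HO.zero_mem⟩
  neg_mem' := by
    rintro x ⟨h1, h2, h3⟩
    exact ⟨HO.neg_mem h1, HO.neg_mem h2, HO.neg_mem h3⟩

theorem mem_MO {x : V 1} : x ∈ MO ↔ x.1 ∈ HO ∧ x.2.1 0 ∈ HO ∧ x.2.2 ∈ HO := Iff.rfl

/-- `H` as `H¹` -/
noncomputable def e1 (z : Q) : E 1 := WithLp.toLp 2 (fun _ => z)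

theorem e1_apply (z : Q) (i : Fin 1) : e1 z i = z := rfl

theorem e1_eta (v : E 1) : e1 (v 0) = v := by
  ext1 i
  fin_cases i
  rfl

theorem e1_norm (z : Q) : ‖e1 z‖ = ‖z‖ := by
  have h : ‖e1 z‖ ^ 2 = ‖z‖ ^ 2 := by
    rw [PiLp.norm_sq_eq_of_L2, Fin.sum_univ_one]
    rfl
  exact (pow_left_inj₀ (norm_nonneg _) (norm_nonneg _) two_ne_zero).1 h

theorem norm_E1 (b : E 1) : ‖b‖ = ‖b 0‖ := by
  conv_lhs => rw [← e1_eta b]
  exact e1_norm _

theorem hin1 (x y : E 1) : hin x y = x 0 * star (y 0) := by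
  unfold hin
  rw [Fin.sum_univ_one]

theorem lat_MO : IsLat MO := by
  refine ⟨⟨1, one_ne_zero, HO.one_mem, HO.zero_mem, HO.zero_mem⟩, ⟨1, one_pos, ?_⟩, ?_, ?_⟩
  · intro x hx h0
    exact HO_norm hx.2.2 h0
  · intro R
    have hF := HO_fin R
    have hfin : ((fun q : (Q × Q × Q) => ((q.1, e1 q.2.1, q.2.2) : V 1)) ''
        ({z : Q | z ∈ HO ∧ ‖z‖ ≤ R} ×ˢ ({z : Q | z ∈ HO ∧ ‖z‖ ≤ R} ×ˢ
          {z : Q | z ∈ HO ∧ ‖z‖ ≤ R}))).Finite :=
      (hF.prod (hF.prod hF)).image _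
    refine hfin.subset ?_
    rintro x ⟨⟨h1, h2, h3⟩, hR⟩
    have n1 : ‖x.1‖ ≤ R := (norm_fst_le x).trans hR
    have n2 : ‖x.2‖ ≤ R := (norm_snd_le x).trans hR
    have n3 : ‖x.2.1‖ ≤ R := (norm_fst_le x.2).trans n2
    have n4 : ‖x.2.2‖ ≤ R := (norm_snd_le x.2).trans n2
    have n5 : ‖x.2.1 0‖ ≤ R := by rw [← norm_E1]; exact n3
    refine ⟨(x.1, x.2.1 0, x.2.2), ⟨⟨h1, n1⟩, ⟨h2, n5⟩, ⟨h3, n4⟩⟩, ?_⟩
    exact Prod.ext rfl (Prod.ext (e1_eta _) rfl)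
  · rw [eq_top_iff]
    rintro x -
    have v1 : ((1, 0, 0) : V 1) ∈ MO := ⟨HO.one_mem, HO.zero_mem, HO.zero_mem⟩
    have v2 : ((0, e1 1, 0) : V 1) ∈ MO := ⟨HO.zero_mem, HO.one_mem, HO.zero_mem⟩
    have v3 : ((0, 0, 1) : V 1) ∈ MO := ⟨HO.zero_mem, HO.zero_mem, HO.one_mem⟩
    have hx : x = x.1 • ((1, 0, 0) : V 1) + (x.2.1 0) • ((0, e1 1, 0) : V 1) +
        x.2.2 • ((0, 0, 1) : V 1) := by
      refine Prod.ext ?_ (Prod.ext ?_ ?_)
      · simp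
      · have : x.2.1 = (x.2.1 0) • e1 1 := by
          conv_lhs => rw [← e1_eta x.2.1]
          ext1 i
          change x.2.1 0 = x.2.1 0 * 1
          rw [mul_one]
        simpa using this
      · simp
    rw [hx]
    refine Submodule.add_mem _ (Submodule.add_mem _ ?_ ?_) ?_
    · exact Submodule.smul_mem _ _ (Submodule.subset_span v1)
    · exact Submodule.smul_mem _ _ (Submodule.subset_span v2)
    · exact Submodule.smul_mem _ _ (Submodule.subset_span v3)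

/-- the Heisenberg translations -/
def NO (a : Q) (b : E 1) : Prop := a ∈ HO ∧ b 0 ∈ HO ∧ 2 * a.re + ‖b‖ ^ 2 = 0

/-- basis of `O` -/
noncomputable def betO : Fin (4 * 1) → E 1 :=
  ![e1 (hq 1 0 0 0), e1 (hq 0 1 0 0), e1 (hq 0 0 1 0), e1 (hq 0 0 0 1)]

/-- basis of the imaginary elements of `O` -/
noncomputable def gamO : Fin 3 → Q := ![hq 0 1 0 0, hq 0 0 1 0, hq 0 0 0 1]

theorem betO_sum (k : Fin (4 * 1) → ℝ) : ∑ i, k i • betO i =
    e1 ⟨k 0 / 2, k 0 / 2 + k 1, k 0 / 2 + k 2, k 0 / 2 + k 3⟩ := by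
  have e : ∑ i, k i • betO i = k 0 • betO 0 + k 1 • betO 1 + k 2 • betO 2 + k 3 • betO 3 :=
    Fin.sum_univ_four _
  rw [e]
  ext1 i
  change k 0 • hq 1 0 0 0 + k 1 • hq 0 1 0 0 + k 2 • hq 0 0 1 0 + k 3 • hq 0 0 0 1 =
    (⟨k 0 / 2, k 0 / 2 + k 1, k 0 / 2 + k 2, k 0 / 2 + k 3⟩ : Q)
  apply Quaternion.ext <;> simp only [Quaternion.re_add, Quaternion.imI_add,
      Quaternion.imJ_add, Quaternion.imK_add, Quaternion.re_smul, Quaternion.imI_smul,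
      Quaternion.imJ_smul, Quaternion.imK_smul, smul_eq_mul, hq_re, hq_i, hq_j, hq_k] <;>
    push_cast <;> ring

theorem gamO_sum (k : Fin 3 → ℝ) : ∑ i, k i • gamO i = ⟨0, k 0, k 1, k 2⟩ := by
  have e : ∑ i, k i • gamO i = k 0 • gamO 0 + k 1 • gamO 1 + k 2 • gamO 2 :=
    Fin.sum_univ_three _
  rw [e]
  change k 0 • hq 0 1 0 0 + k 1 • hq 0 0 1 0 + k 2 • hq 0 0 0 1 =
    (⟨0, k 0, k 1, k 2⟩ : Q)
  apply Quaternion.ext <;> simp only [Quaternion.re_add, Quaternion.imI_add,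
      Quaternion.imJ_add, Quaternion.imK_add, Quaternion.re_smul, Quaternion.imI_smul,
      Quaternion.imJ_smul, Quaternion.imK_smul, smul_eq_mul, hq_re, hq_i, hq_j, hq_k] <;>
    push_cast <;> ring

theorem cusp_MO : Cusp NO betO gamO where
  im := by
    intro j
    fin_cases j <;> simp [gamO, hq]
  lic := by
    rw [Fintype.linearIndependent_iff]
    intro g hg
    rw [gamO_sum] at hg
    have h1 := congrArg QuaternionAlgebra.imI hg
    have h2 := congrArg QuaternionAlgebra.imJ hg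
    have h3 := congrArg QuaternionAlgebra.imK hg
    intro i
    fin_cases i
    · exact h1
    · exact h2
    · exact h3
  li := by
    rw [Fintype.linearIndependent_iff]
    intro g hg
    rw [betO_sum] at hg
    have hg' : (⟨g 0 / 2, g 0 / 2 + g 1, g 0 / 2 + g 2, g 0 / 2 + g 3⟩ : Q) = 0 :=
      congrArg (fun v : E 1 => v 0) hg
    have h0 : g 0 / 2 = 0 := congrArg QuaternionAlgebra.re hg'
    have h1 : g 0 / 2 + g 1 = 0 := congrArg QuaternionAlgebra.imI hg'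
    have h2 : g 0 / 2 + g 2 = 0 := congrArg QuaternionAlgebra.imJ hg'
    have h3 : g 0 / 2 + g 3 = 0 := congrArg QuaternionAlgebra.imK hg'
    intro i
    fin_cases i
    · change g 0 = 0; linarith
    · change g 1 = 0; linarith
    · change g 2 = 0; linarith
    · change g 3 = 0; linarith
  norm := fun a b h => h.2.2
  mul := by
    rintro a b a' b' ⟨h1, h2, h3⟩ ⟨h1', h2', h3'⟩
    refine ⟨?_, HO.add_mem h2 h2', ?_⟩
    · rw [hin1]
      exact HO.sub_mem (HO.add_mem h1 h1') (HO.mul_mem h2' (star_HO h2))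
    · have e : (hin b b').re = (hin b' b).re := by
        rw [← inner_re, ← inner_re, real_inner_comm]
      rw [norm_add_sq_c, Quaternion.re_sub, Quaternion.re_add, e]
      linarith
  inv := by
    rintro a b ⟨h1, h2, h3⟩
    refine ⟨star_HO h1, HO.neg_mem h2, ?_⟩
    rw [Quaternion.re_star, norm_neg]
    exact h3
  lat := by
    intro b
    constructor
    · rintro ⟨a, -, ⟨n, b1, c1, d1, hb⟩, -⟩
      refine ⟨![n, b1, c1, d1], ?_⟩
      rw [betO_sum, ← e1_eta b, hb]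
      rfl
    · rintro ⟨k, rfl⟩
      rw [betO_sum]
      set N : ℤ := (k 0) ^ 2 + k 0 * (k 1 + k 2 + k 3) + (k 1) ^ 2 + (k 2) ^ 2 + (k 3) ^ 2 with hN
      refine ⟨hq (-N) 0 0 0, hq_mem _ _ _ _, ⟨k 0, k 1, k 2, k 3, rfl⟩, ?_⟩
      have := hq_norm (k 0) (k 1) (k 2) (k 3)
      rw [← hN] at this
      have e : (⟨(k 0 : ℝ) / 2, (k 0 : ℝ) / 2 + (k 1 : ℝ), (k 0 : ℝ) / 2 + (k 2 : ℝ),
        (k 0 : ℝ) / 2 + (k 3 : ℝ)⟩ : Q) = hq (k 0) (k 1) (k 2) (k 3) := rfl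
      have e2 : ‖e1 (⟨(k 0 : ℝ) / 2, (k 0 : ℝ) / 2 + (k 1 : ℝ), (k 0 : ℝ) / 2 + (k 2 : ℝ),
        (k 0 : ℝ) / 2 + (k 3 : ℝ)⟩ : Q)‖ ^ 2 = (N : ℝ) := by
        rw [e, e1_norm]
        exact this
      have e3 : 2 * (hq (-N) 0 0 0).re + (N : ℝ) = 0 := by
        rw [hq_re]
        push_cast
        ring
      exact (congrArg (fun t : ℝ => 2 * (hq (-N) 0 0 0).re + t) e2).trans e3
  cen := by
    intro a
    constructor
    · rintro ⟨⟨n, b, c, d, rfl⟩, -, h3⟩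
      rw [norm_zero] at h3
      have hn : n = 0 := by
        rw [hq_re] at h3
        have : (n : ℝ) = 0 := by linarith
        exact_mod_cast this
      subst hn
      refine ⟨![b, c, d], ?_⟩
      rw [gamO_sum]
      apply Quaternion.ext
      · simp [hq_re]
      · simp [hq_i]
      · simp [hq_j]
      · simp [hq_k]
    · rintro ⟨k, rfl⟩
      rw [gamO_sum]
      refine ⟨⟨0, k 0, k 1, k 2, ?_⟩, HO.zero_mem, ?_⟩
      · apply Quaternion.ext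
        · simp [hq_re]
        · simp [hq_i]
        · simp [hq_j]
        · simp [hq_k]
      · simp

theorem q_inner (x y : Q) : inner ℝ x y =
    x.re * y.re + x.imI * y.imI + x.imJ * y.imJ + x.imK * y.imK := by
  rw [Quaternion.inner_def, Quaternion.re_mul]
  simp

theorem e1_inner (v : E 1) (y : Q) : inner ℝ v (e1 y) = inner ℝ (v 0) y := by
  rw [PiLp.inner_apply, Fin.sum_univ_one]
  rfl

theorem dual_MO : DualMin betO 2 := by
  intro ξ hξ h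
  obtain ⟨k0, h0⟩ := h 0
  obtain ⟨k1, h1⟩ := h 1
  obtain ⟨k2, h2⟩ := h 2
  obtain ⟨k3, h3⟩ := h 3
  have h0' : inner ℝ ξ (e1 (hq 1 0 0 0)) = (k0 : ℝ) := h0
  have h1' : inner ℝ ξ (e1 (hq 0 1 0 0)) = (k1 : ℝ) := h1
  have h2' : inner ℝ ξ (e1 (hq 0 0 1 0)) = (k2 : ℝ) := h2
  have h3' : inner ℝ ξ (e1 (hq 0 0 0 1)) = (k3 : ℝ) := h3
  rw [e1_inner, q_inner] at h0' h1' h2' h3'
  simp only [hq_re, hq_i, hq_j, hq_k] at h0' h1' h2' h3'
  push_cast at h0' h1' h2' h3'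
  have hx : ξ 0 ≠ 0 := by
    intro h
    apply hξ
    rw [← e1_eta ξ, h]
    ext1 i
    rfl
  rw [norm_E1, q_norm_sq]
  set x := ξ 0 with hxdef
  have f1' : x.imI = k1 := by linarith
  have f2' : x.imJ = k2 := by linarith
  have f3' : x.imK = k3 := by linarith
  have f0' : x.re = 2 * k0 - k1 - k2 - k3 := by linarith
  rw [f0', f1', f2', f3']
  have hne : ¬ (k0 = 0 ∧ k1 = 0 ∧ k2 = 0 ∧ k3 = 0) := by
    rintro ⟨rfl, rfl, rfl, rfl⟩
    apply hx
    apply Quaternion.ext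
    · rw [f0', Quaternion.re_zero]; push_cast; ring
    · rw [f1', Quaternion.imI_zero]; push_cast; ring
    · rw [f2', Quaternion.imJ_zero]; push_cast; ring
    · rw [f3', Quaternion.imK_zero]; push_cast; ring
  have hint : (2 : ℤ) ≤ (2 * k0 - k1 - k2 - k3) ^ 2 + k1 ^ 2 + k2 ^ 2 + k3 ^ 2 := by
    have hev : (2 * k0 - k1 - k2 - k3) ^ 2 + k1 ^ 2 + k2 ^ 2 + k3 ^ 2 =
        2 * (2 * k0 ^ 2 - 2 * k0 * (k1 + k2 + k3) + k1 ^ 2 + k2 ^ 2 + k3 ^ 2 + k1 * k2 +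
          k1 * k3 + k2 * k3) := by ring
    have hpos : 0 < (2 * k0 - k1 - k2 - k3) ^ 2 + k1 ^ 2 + k2 ^ 2 + k3 ^ 2 := by
      by_contra hcon
      push Not at hcon
      have g0 := sq_nonneg (2 * k0 - k1 - k2 - k3)
      have g1 := sq_nonneg k1
      have g2 := sq_nonneg k2
      have g3 := sq_nonneg k3
      have a1 : k1 ^ 2 = 0 := by omega
      have a2 : k2 ^ 2 = 0 := by omega
      have a3 : k3 ^ 2 = 0 := by omega
      have a0 : (2 * k0 - k1 - k2 - k3) ^ 2 = 0 := by omega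
      have b1 := pow_eq_zero_iff (two_ne_zero) |>.1 a1
      have b2 := pow_eq_zero_iff (two_ne_zero) |>.1 a2
      have b3 := pow_eq_zero_iff (two_ne_zero) |>.1 a3
      have b0 := pow_eq_zero_iff (two_ne_zero) |>.1 a0
      exact hne ⟨by omega, b1, b2, b3⟩
    rw [hev] at hpos ⊢
    omega
  exact_mod_cast hint

theorem cent_MO : CentMin gamO 1 := by
  intro ξ hre hξ h
  obtain ⟨k1, h1⟩ := h 0
  obtain ⟨k2, h2⟩ := h 1
  obtain ⟨k3, h3⟩ := h 2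
  have h1' : inner ℝ ξ (hq 0 1 0 0) = (k1 : ℝ) := h1
  have h2' : inner ℝ ξ (hq 0 0 1 0) = (k2 : ℝ) := h2
  have h3' : inner ℝ ξ (hq 0 0 0 1) = (k3 : ℝ) := h3
  rw [q_inner] at h1' h2' h3'
  simp only [hq_re, hq_i, hq_j, hq_k] at h1' h2' h3'
  push_cast at h1' h2' h3'
  have hm : ξ ∈ HO := by
    refine ⟨0, k1, k2, k3, ?_⟩
    apply Quaternion.ext
    · rw [hre, hq_re]; simp
    · rw [hq_i]; push_cast; linarith
    · rw [hq_j]; push_cast; linarith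
    · rw [hq_k]; push_cast; linarith
  exact HO_norm hm hξ

theorem T_MO_sub {a : Q} {b : E 1} (h : NO a b) {x : V 1} (hx : x ∈ MO) : T a b x ∈ MO := by
  obtain ⟨h1, h2, h3⟩ := h
  obtain ⟨x1, x2, x3⟩ := hx
  rw [T_apply]
  refine ⟨?_, ?_, x3⟩
  · change x.1 - hin x.2.1 b + x.2.2 * a ∈ HO
    rw [hin1]
    exact HO.add_mem (HO.sub_mem x1 (HO.mul_mem x2 (star_HO h2))) (HO.mul_mem x3 h1)
  · change x.2.1 0 + x.2.2 * b 0 ∈ HO
    exact HO.add_mem x2 (HO.mul_mem x3 h2)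

theorem T_MO {a : Q} {b : E 1} (h : NO a b) : T a b ∈ Gam MO := by
  refine ⟨T_mem_UG h.2.2, fun x => ⟨fun hx => ?_, fun hx => T_MO_sub h hx⟩⟩
  have h' := cusp_MO.inv a b h
  have := T_MO_sub h' hx
  rw [T_inv h.2.2] at this
  have e : (T a b)⁻¹ (T a b x) = x := (T a b).symm_apply_apply x
  rwa [e] at this

/-- the inversion -/
noncomputable def JJ : V 1 ≃ₗ[Q] V 1 where
  toFun x := (x.2.2, x.2.1, x.1)
  map_add' _ _ := rfl
  map_smul' _ _ := rfl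
  invFun x := (x.2.2, x.2.1, x.1)
  left_inv _ := rfl
  right_inv _ := rfl

theorem JJ_apply (x : V 1) : JJ x = (x.2.2, x.2.1, x.1) := rfl

theorem JJ_Gam : JJ ∈ Gam MO := by
  refine ⟨fun x y => ?_, fun x => ?_⟩
  · simp only [JJ_apply, herm]
    abel
  · rw [mem_MO, mem_MO, JJ_apply]
    constructor
    · rintro ⟨h1, h2, h3⟩
      exact ⟨h3, h2, h1⟩
    · rintro ⟨h1, h2, h3⟩
      exact ⟨h3, h2, h1⟩

/-- covering radius of the Hurwitz integers -/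
theorem HO_cover (z : Q) : ∃ b ∈ HO, ‖z + b‖ ^ 2 ≤ 1 / 2 := by
  have key : ∀ x : ℝ, |x - round x| ≤ 1 / 2 := fun x => abs_sub_round x
  have k0 := key z.re
  have k1 := key z.imI
  have k2 := key z.imJ
  have k3 := key z.imK
  -- the nearest shift by a half in one coordinate
  have aux : ∀ x : ℝ, ∃ s : ℤ, (x - round x) ^ 2 + (x - round x + s - 1 / 2) ^ 2 ≤ 1 / 4 := by
    intro x
    have hx := key x
    rw [abs_le] at hx
    rcases le_total 0 (x - round x) with h | h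
    · refine ⟨0, ?_⟩
      push_cast
      nlinarith [hx.1, hx.2]
    · refine ⟨1, ?_⟩
      push_cast
      nlinarith [hx.1, hx.2]
  obtain ⟨s0, e0⟩ := aux z.re
  obtain ⟨s1, e1'⟩ := aux z.imI
  obtain ⟨s2, e2⟩ := aux z.imJ
  obtain ⟨s3, e3⟩ := aux z.imK
  by_cases hc : (z.re - round z.re) ^ 2 + (z.imI - round z.imI) ^ 2 +
      (z.imJ - round z.imJ) ^ 2 + (z.imK - round z.imK) ^ 2 ≤ 1 / 2
  · refine ⟨hq (-2 * round z.re) (round z.re - round z.imI) (round z.re - round z.imJ)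
      (round z.re - round z.imK), hq_mem _ _ _ _, ?_⟩
    rw [q_norm_sq]
    simp only [Quaternion.re_add, Quaternion.imI_add, Quaternion.imJ_add, Quaternion.imK_add,
      hq_re, hq_i, hq_j, hq_k]
    push_cast
    refine le_trans (le_of_eq ?_) hc
    ring
  · push Not at hc
    refine ⟨hq (-2 * round z.re + 2 * s0 - 1) (round z.re - round z.imI - s0 + s1)
      (round z.re - round z.imJ - s0 + s2)
      (round z.re - round z.imK - s0 + s3), hq_mem _ _ _ _, ?_⟩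
    rw [q_norm_sq]
    simp only [Quaternion.re_add, Quaternion.imI_add, Quaternion.imJ_add, Quaternion.imK_add,
      hq_re, hq_i, hq_j, hq_k]
    push_cast
    nlinarith [e0, e1', e2, e3, hc]

/-- every orbit contains a point of maximal height -/
theorem exists_top {p : Pt 1} (hp : p ∈ SD 1) : ∃ g ∈ Gam MO, ∀ h ∈ Gam MO,
    hgt (act h (act g p)) ≤ hgt (act g p) := by
  have hu : 0 < hgt p := hp
  have hw0 : (w0 : V 1) ∈ MO := ⟨HO.one_mem, HO.zero_mem, HO.zero_mem⟩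
  obtain ⟨B, hB⟩ := lf_bound' (m := 1) (C := max ‖p.2‖ ‖p.1.im‖) (a := hgt p) (H := hgt p)
    (K := 2 * (1 / hgt p)) hu (by positivity)
  set W : Set (V 1) := {w | w ∈ Orb MO ∧ uval w p ≤ 1 / hgt p} with hW
  have hWf : W.Finite := by
    refine (lat_MO.fin B).subset ?_
    rintro w ⟨hw, hw2⟩
    refine ⟨?_, ?_⟩
    · obtain ⟨γ, hγ, rfl⟩ := hw
      exact (hγ.2 _).2 hw0
    · refine hB p w ⟨le_max_left _ _, le_max_right _ _, le_rfl⟩ le_rfl ?_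
      unfold lf_Q
      rw [herm_Orb hw]
      simp only [Quaternion.re_zero, zero_add]
      linarith
  have hWn : W.Nonempty := ⟨w0, w0_mem _, by rw [uval_w0]⟩
  obtain ⟨w, ⟨hwO, hwu⟩, hmin⟩ := hWf.exists_minimalFor (fun w => uval w p) W hWn
  obtain ⟨γ, hγ, rfl⟩ := hwO
  have hγi := (Gam MO).inv_mem hγ
  have hq : act γ⁻¹ p ∈ SD 1 := act_mem hγi.1 hp
  have ev : ∀ g ∈ Gam MO, 1 / hgt (act g p) = uval (g⁻¹ w0) p := by
    intro g hg
    rw [← uval_w0, uval_act hg.1 _ hp]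
  refine ⟨γ⁻¹, hγi, fun h hh => ?_⟩
  have hprod : h * γ⁻¹ ∈ Gam MO := (Gam MO).mul_mem hh hγi
  have e1 := ev _ hprod
  have e2 := ev _ hγi
  rw [inv_inv] at e2
  rw [act_mul h hγi.1 hp] at e1
  have hpos1 : 0 < hgt (act h (act γ⁻¹ p)) := act_mem hh.1 hq
  have hpos2 : 0 < hgt (act γ⁻¹ p) := hq
  have hle : uval (γ w0) p ≤ uval ((h * γ⁻¹)⁻¹ w0) p := by
    by_contra hcon
    push Not at hcon
    have hm : ((h * γ⁻¹)⁻¹ w0 : V 1) ∈ W :=
      ⟨⟨_, (Gam MO).inv_mem hprod, rfl⟩, hcon.le.trans hwu⟩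
    have := hmin hm hcon.le
    exact absurd hcon (not_lt.2 this)
  rw [← e1, ← e2] at hle
  exact (one_div_le_one_div hpos2 hpos1).1 hle

theorem hgt_JJ {p : Pt 1} (hp : p ∈ SD 1) : hgt (act JJ p) = hgt p / ‖p.1‖ ^ 2 := by
  rw [hgt_act JJ_Gam.1 hp]
  rfl

theorem cov_MO : Covers MO 1 (1 / 2) := by
  intro p hp
  obtain ⟨g, hg, htop⟩ := exists_top hp
  set q := act g p with hq_def
  have hqS : q ∈ SD 1 := act_mem hg.1 hp
  obtain ⟨b, hb, hbn⟩ := HO_cover (q.2 0)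
  obtain ⟨N, hN⟩ := HO_norm_sq hb
  obtain ⟨z, hz⟩ : ∃ z : Q, z = q.1 - q.2 0 * star b + hq (-N) 0 0 0 := ⟨_, rfl⟩
  have z1 := congrArg QuaternionAlgebra.imI hz
  have z2 := congrArg QuaternionAlgebra.imJ hz
  have z3 := congrArg QuaternionAlgebra.imK hz
  simp only [Quaternion.imI_add, Quaternion.imI_sub, hq_i] at z1
  simp only [Quaternion.imJ_add, Quaternion.imJ_sub, hq_j] at z2
  simp only [Quaternion.imK_add, Quaternion.imK_sub, hq_k] at z3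
  set a : Q := hq (-N) (-round z.imI) (-round z.imJ) (-round z.imK) with ha
  have haH : a ∈ HO := hq_mem _ _ _ _
  have hNO : NO a (e1 b) := by
    refine ⟨haH, hb, ?_⟩
    rw [e1_norm, hN, ha, hq_re]
    push_cast
    ring
  have hT := T_MO hNO
  have hTg : T a (e1 b) * g ∈ Gam MO := (Gam MO).mul_mem hT hg
  have hact : act (T a (e1 b) * g) p = act (T a (e1 b)) q := act_mul _ hg.1 hp
  set r := act (T a (e1 b)) q with hr
  have hrS : r ∈ SD 1 := act_mem hT.1 hqS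
  have hh : hgt r = hgt q := hgt_T hNO.2.2 q
  have hr1 : r.1 = q.1 - q.2 0 * star b + a := by
    rw [hr, act_T, hin1]
    rfl
  have hr2 : r.2 0 = q.2 0 + b := by
    rw [hr, act_T]
    rfl
  have i1 : r.1.imI = z.imI - round z.imI := by
    rw [hr1, ha]
    simp only [Quaternion.imI_add, Quaternion.imI_sub, hq_i]
    push_cast at z1 ⊢
    linarith
  have i2 : r.1.imJ = z.imJ - round z.imJ := by
    rw [hr1, ha]
    simp only [Quaternion.imJ_add, Quaternion.imJ_sub, hq_j]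
    push_cast at z2 ⊢
    linarith
  have i3 : r.1.imK = z.imK - round z.imK := by
    rw [hr1, ha]
    simp only [Quaternion.imK_add, Quaternion.imK_sub, hq_k]
    push_cast at z3 ⊢
    linarith
  have a1 := abs_sub_round z.imI
  have a2 := abs_sub_round z.imJ
  have a3 := abs_sub_round z.imK
  rw [← i1] at a1
  rw [← i2] at a2
  rw [← i3] at a3
  have s1 : r.1.imI ^ 2 ≤ 1 / 4 := by
    rw [abs_le] at a1; nlinarith [a1.1, a1.2]
  have s2 : r.1.imJ ^ 2 ≤ 1 / 4 := by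
    rw [abs_le] at a2; nlinarith [a2.1, a2.2]
  have s3 : r.1.imK ^ 2 ≤ 1 / 4 := by
    rw [abs_le] at a3; nlinarith [a3.1, a3.2]
  have hζ : ‖r.2‖ ^ 2 ≤ 1 / 2 := by
    rw [norm_E1, hr2]; exact hbn
  have hrp : 0 < hgt r := hrS
  -- the inversion does not increase the height
  have hJ : hgt (act JJ r) ≤ hgt r := by
    have h1 := htop (JJ * T a (e1 b)) ((Gam MO).mul_mem JJ_Gam hT)
    rw [act_mul JJ hT.1 hqS] at h1
    rw [hh]
    exact h1
  rw [hgt_JJ hrS] at hJ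
  have hz0 : 0 < ‖r.1‖ ^ 2 := by
    have : r.1 ≠ 0 := by
      intro h0
      have h1 : hgt r = -(2 * r.1.re + ‖r.2‖ ^ 2) := rfl
      rw [h0] at h1
      simp only [Quaternion.re_zero, mul_zero, zero_add] at h1
      nlinarith [sq_nonneg ‖r.2‖]
    have := norm_pos_iff.2 this
    positivity
  have hz1 : 1 ≤ ‖r.1‖ ^ 2 := by
    rw [div_le_iff₀ hz0] at hJ
    by_contra hcon
    push Not at hcon
    nlinarith
  have hre : r.1.re = -(hgt r + ‖r.2‖ ^ 2) / 2 := by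
    unfold hgt
    ring
  refine ⟨T a (e1 b) * g, hTg, ?_⟩
  rw [hact]
  refine ⟨?_, ?_, ?_⟩
  · refine abs_le_of_sq_le_sq' ?_ zero_le_one |>.2
    linarith
  · refine abs_le_of_sq_le_sq' ?_ zero_le_one |>.2
    rw [q_norm_sq]
    simp only [Quaternion.re_im, Quaternion.imI_im, Quaternion.imJ_im, Quaternion.imK_im]
    linarith
  · rw [q_norm_sq, hre] at hz1
    by_contra hcon
    push Not at hcon
    have h2 : 0 ≤ ‖r.2‖ ^ 2 := sq_nonneg _
    have h3 : 0 ≤ hgt r + ‖r.2‖ ^ 2 := by linarith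
    have h4 : hgt r + ‖r.2‖ ^ 2 < 1 := by linarith
    have h5 : (hgt r + ‖r.2‖ ^ 2) ^ 2 < 1 := pow_lt_one₀ h3 h4 two_ne_zero
    have h6 : (-(hgt r + ‖r.2‖ ^ 2) / 2) ^ 2 = (hgt r + ‖r.2‖ ^ 2) ^ 2 / 4 := by ring
    rw [h6] at hz1
    linarith

end Pool.Agent.Helper19.Qc
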